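import Pool.Agent.Helper73.DU.Main5

/-!
MP_3976d4_co, partial answer to Q1: the conclusion holds, for posets of finite length and even for
posets without infinite chains, whenever the poset contains no chain `a < a' < a'' < c < e` such
that `s ∧ a`, `s ∧ a'`, `s ∧ a''` do not exist, `s ∧ c` exists and `s ∨ e` does not exist, and no
chain `a < a' < c < c' < e` such that `s ∧ a`, `s ∧ a'` do not exist, `s ∧ c`, `s ∧ c'` exist and
`s ∨ e` does not exist; more precisely for every order-preserving map `f` such that no chain of five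
points around `s` has values of these kinds.
-/

set_option autoImplicit false

universe u

namespace Pool.Agent.Results.MP_3976d4_co.NoDoubleCrossing

/-- `a ∨ b` exists: `{a, b}` has a least upper bound. -/
abbrev HasJoin {P : Type u} [PartialOrder P] (a b : P) : Prop := ∃ z : P, IsLUB ({a, b} : Set P) z

/-- `a ∧ b` exists: `{a, b}` has a greatest lower bound. -/
abbrev HasMeet {P : Type u} [PartialOrder P] (a b : P) : Prop := ∃ z : P, IsGLB ({a, b} : Set P) z

/-- Let `P` be a poset without infinite chains (for example a poset of finite length), `s ∈ P` and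
`f : P → P` order-preserving.

(1) Let `s` be special, that is, conditions (i) and (ii) of the problem hold. Suppose that `P` has
no chain `a < a' < a'' < c < e` such that `s ∧ a`, `s ∧ a'`, `s ∧ a''` do not exist, `s ∧ c` exists
and `s ∨ e` does not exist, and no chain `a < a' < c < c' < e` such that `s ∧ a`, `s ∧ a'` do not
exist, `s ∧ c`, `s ∧ c'` exist and `s ∨ e` does not exist. Or suppose, more generally, that there is
no chain `x < x' < x'' < w < y` with `x ≤ s ≤ y`, `f x < f x' < f x''`, `f w < f y` such that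
`s ∧ f x`, `s ∧ f x'`, `s ∧ f x''` do not exist, `s ∧ f w` exists and `s ∨ f y` does not exist, and
no chain `x < x' < w < w' < y` with `x ≤ s ≤ y`, `f x < f x'`, `f w < f w' < f y` such that
`s ∧ f x`, `s ∧ f x'` do not exist, `s ∧ f w`, `s ∧ f w'` exist and `s ∨ f y` does not exist. Then
`f` has a fixed point. So does it under the order dual of these assumptions.

(2) Let `A` be a subset of `P` and `b : P → P` order-preserving off `A` such that `s ∨ f x` exists
for `x ∈ A`; `b w ≤ s` and `b w ≤ f w` for `w ∉ A`; and `b w ∨ f x` exists whenever `x < w`,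
`x ∈ A`, `w ∉ A` and `b w < s`. Write `w ≺ w'` if `f w < f w'` or `b w < b w'`. If there is no chain
`x < x' < x'' < w < w'` with `x, x', x'' ∈ A`, `w, w' ∉ A`, `x ≤ s ≤ w'`, `f x < f x' < f x''`,
`w ≺ w'`, and no chain `x < x' < w < w' < w''` with `x, x' ∈ A`, `w, w', w'' ∉ A`, `x ≤ s ≤ w''`,
`f x < f x'`, `w ≺ w' ≺ w''`, then `f` has a fixed point.

(3) The order dual of (2). -/
theorem result :
    ∀ (P : Type u) [PartialOrder P],
      (∀ C : Set P, IsChain (· ≤ ·) C → C.Finite) →
      ∀ (s : P) (f : P → P), Monotone f →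
        ((∀ x : P, HasJoin s x ∨ HasMeet s x) →
          ((∀ x y : P, x < y → ¬ HasMeet s x → ∀ m : P, IsGLB ({s, y} : Set P) m → HasJoin m x) ∧
            (((∀ a a' a'' c e : P, a < a' → a' < a'' → a'' < c → c < e →
                  ¬ HasMeet s a → ¬ HasMeet s a' → ¬ HasMeet s a'' → HasMeet s c → HasJoin s e) ∧
                (∀ a a' c c' e : P, a < a' → a' < c → c < c' → c' < e →
                  ¬ HasMeet s a → ¬ HasMeet s a' → HasMeet s c → HasMeet s c' → HasJoin s e)) ∨
              ((∀ x x' x'' w y : P, x < x' → x' < x'' → x'' < w → w < y → x ≤ s → s ≤ y →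
                  f x < f x' → f x' < f x'' → f w < f y → ¬ HasMeet s (f x) →
                  ¬ HasMeet s (f x') → ¬ HasMeet s (f x'') → HasMeet s (f w) →
                  HasJoin s (f y)) ∧
                (∀ x x' w w' y : P, x < x' → x' < w → w < w' → w' < y → x ≤ s → s ≤ y →
                  f x < f x' → f w < f w' → f w' < f y → ¬ HasMeet s (f x) →
                  ¬ HasMeet s (f x') → HasMeet s (f w) → HasMeet s (f w') →
                  HasJoin s (f y))))) ∨
          ((∀ x y : P, y < x → ¬ HasJoin s x → ∀ m : P, IsLUB ({s, y} : Set P) m → HasMeet m x) ∧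
            (((∀ a a' a'' c e : P, a' < a → a'' < a' → c < a'' → e < c →
                  ¬ HasJoin s a → ¬ HasJoin s a' → ¬ HasJoin s a'' → HasJoin s c → HasMeet s e) ∧
                (∀ a a' c c' e : P, a' < a → c < a' → c' < c → e < c' →
                  ¬ HasJoin s a → ¬ HasJoin s a' → HasJoin s c → HasJoin s c' → HasMeet s e)) ∨
              ((∀ x x' x'' w y : P, x' < x → x'' < x' → w < x'' → y < w → s ≤ x → y ≤ s →
                  f x' < f x → f x'' < f x' → f y < f w → ¬ HasJoin s (f x) →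
                  ¬ HasJoin s (f x') → ¬ HasJoin s (f x'') → HasJoin s (f w) →
                  HasMeet s (f y)) ∧
                (∀ x x' w w' y : P, x' < x → w < x' → w' < w → y < w' → s ≤ x → y ≤ s →
                  f x' < f x → f w' < f w → f y < f w' → ¬ HasJoin s (f x) →
                  ¬ HasJoin s (f x') → HasJoin s (f w) → HasJoin s (f w') →
                  HasMeet s (f y))))) →
          ∃ x, f x = x) ∧
        (∀ (A : Set P) (b : P → P),
          (∀ x ∈ A, HasJoin s (f x)) →
          (∀ w, w ∉ A → b w ≤ s ∧ b w ≤ f w) →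
          (∀ v w, v ∉ A → w ∉ A → v ≤ w → b v ≤ b w) →
          (∀ x w, x ∈ A → w ∉ A → x < w → b w < s → HasJoin (b w) (f x)) →
          (∀ x x' x'' w w' : P, x ∈ A → x' ∈ A → x'' ∈ A → w ∉ A → w' ∉ A → x < x' → x' < x'' →
            x'' < w → w < w' → x ≤ s → s ≤ w' → f x < f x' → f x' < f x'' →
            ¬ (f w < f w' ∨ b w < b w')) →
          (∀ x x' w w' w'' : P, x ∈ A → x' ∈ A → w ∉ A → w' ∉ A → w'' ∉ A → x < x' → x' < w →
            w < w' → w' < w'' → x ≤ s → s ≤ w'' → f x < f x' → (f w < f w' ∨ b w < b w') →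
            ¬ (f w' < f w'' ∨ b w' < b w'')) →
          ∃ x, f x = x) ∧
        (∀ (A : Set P) (b : P → P),
          (∀ x ∈ A, HasMeet s (f x)) →
          (∀ w, w ∉ A → s ≤ b w ∧ f w ≤ b w) →
          (∀ v w, v ∉ A → w ∉ A → v ≤ w → b v ≤ b w) →
          (∀ x w, x ∈ A → w ∉ A → w < x → s < b w → HasMeet (b w) (f x)) →
          (∀ x x' x'' w w' : P, x ∈ A → x' ∈ A → x'' ∈ A → w ∉ A → w' ∉ A → x' < x → x'' < x' →
            w < x'' → w' < w → s ≤ x → w' ≤ s → f x' < f x → f x'' < f x' →
            ¬ (f w' < f w ∨ b w' < b w)) →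
          (∀ x x' w w' w'' : P, x ∈ A → x' ∈ A → w ∉ A → w' ∉ A → w'' ∉ A → x' < x → w < x' →
            w' < w → w'' < w' → s ≤ x → w'' ≤ s → f x' < f x → (f w' < f w ∨ b w' < b w) →
            ¬ (f w'' < f w' ∨ b w'' < b w')) →
          ∃ x, f x = x) := by
  intro P _ hfin s f hf
  refine ⟨?_, ?_, ?_⟩
  · intro h1 h
    rcases h with ⟨h2, ⟨h3, h4⟩ | ⟨h3, h4⟩⟩ | ⟨h2, ⟨h3, h4⟩ | ⟨h3, h4⟩⟩
    · exact Pool.Agent.Helper73.DU.specialG' P hfin s h1 h2 h3 h4 f hf
    · exact Pool.Agent.Helper73.DU.specialG P hfin s h1 h2 f hf h3 h4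
    · exact Pool.Agent.Helper73.DU.specialG' Pᵒᵈ (Pool.Agent.Helper73.DU.chainsF_dual hfin) s
        (fun x => (h1 x).symm) h2 h3 h4 f (fun x y hxy => hf hxy)
    · exact Pool.Agent.Helper73.DU.specialG Pᵒᵈ (Pool.Agent.Helper73.DU.chainsF_dual hfin) s
        (fun x => (h1 x).symm) h2 f (fun x y hxy => hf hxy) h3 h4
  · intro A b h1 h2 h3 h4 h5 h6
    exact Pool.Agent.Helper73.DU.mainG P hfin s f hf A b h1 h2 h3 h4 h5 h6
  · intro A b h1 h2 h3 h4 h5 h6
    exact Pool.Agent.Helper73.DU.mainG_dual P hfin s f hf A b h1 h2 h3 h4 h5 h6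

end Pool.Agent.Results.MP_3976d4_co.NoDoubleCrossing
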