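import Pool.Agent.Helper73.PQ.Main

/-!
MP_3976d4_co, partial answer to Q1: an order-preserving map `f` has a fixed point if no four periodic
points form a chain, or if the points of period prime to some prime form a finite (or only a thin)
set; the same for automorphisms `f` with `f^m s` comparable with `s` (and for all order-preserving
maps, if `s ∧ x` or all joins `d ∨ x`, `d ≤ s`, exist, for example in lattices without 0, 1 and the
complements of `s`), if `m` is a power of a prime or the points of period dividing `m` satisfy such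
a condition.
-/

set_option autoImplicit false

universe u

namespace Pool.Agent.Results.MP_3976d4_co.PeriodicPoints

/-- The set `E` is thin: there is no ray in `E` (an infinite sequence of distinct elements of `E`
whose consecutive members are comparable), or no three elements of `E` form a chain. Finite sets are
thin. -/
def Thin {P : Type u} [PartialOrder P] (E : Set P) : Prop :=
  (¬ ∃ v : ℕ → P, Function.Injective v ∧ (∀ i, v i ∈ E) ∧ ∀ i, v i ≤ v (i + 1) ∨ v (i + 1) ≤ v i) ∨
    (∀ a ∈ E, ∀ b ∈ E, ∀ c ∈ E, a < b → ¬ b < c)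

/-- For some prime `p` the points `x` of `Q` with `f^j x = x` for some `j` not divisible by `p` form
a thin set, or no four periodic points of `f` in `Q` form a chain. -/
def Slim {P : Type u} [PartialOrder P] (f : P → P) (Q : Set P) : Prop :=
  (∃ p : ℕ, p.Prime ∧ Thin {x : P | x ∈ Q ∧ ∃ j : ℕ, ¬ p ∣ j ∧ f^[j] x = x}) ∨
    ∀ a ∈ {x : P | x ∈ Q ∧ ∃ j : ℕ, 0 < j ∧ f^[j] x = x},
    ∀ b ∈ {x : P | x ∈ Q ∧ ∃ j : ℕ, 0 < j ∧ f^[j] x = x},
    ∀ c ∈ {x : P | x ∈ Q ∧ ∃ j : ℕ, 0 < j ∧ f^[j] x = x},
    ∀ d ∈ {x : P | x ∈ Q ∧ ∃ j : ℕ, 0 < j ∧ f^[j] x = x}, a < b → b < c → ¬ c < d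

/-- `m` is a power of a prime (possibly 1), or the set of the points `x` with `f^m x = x` is slim, or
the points `d` of `E` with `f^m d = d` form a thin set. -/
def Few {P : Type u} [PartialOrder P] (f : P → P) (m : ℕ) (E : Set P) : Prop :=
  (∃ p k : ℕ, p.Prime ∧ m = p ^ k) ∨ Slim f {x : P | f^[m] x = x} ∨
    Thin {d : P | d ∈ E ∧ f^[m] d = d}

/-- Let `P` be a poset whose chains have bounded size, `s` an element of `P` and `f` an
order-preserving self-map. Then `f` has a fixed point if (A) or (B) holds.

(A) No four periodic points of `f` form a chain, or for some prime `p` the points `x` with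
`f^j x = x` for some `j` not divisible by `p` form a thin set (for instance a finite set); and there
are a set `A` of elements and a map `β : P → P`, order-preserving off `A`, such that `s ∨ f x` exists
for all `x ∈ A`, `β w ≤ s` and `β w ≤ f w` for all `w ∉ A`, and the join `β w ∨ f x` exists whenever
`x < w`, `x ∈ A`, `w ∉ A` and `β w < s`, or the order dual of this. (If `s` is special take for `A`
the set of all `x` such that `s ∧ f x` does not exist, and `β w = s ∧ f w`.)

(B) For some `m ≥ 0`, with `Q` the set of all `x` with `f^m x = x`: (a) `f` is an automorphism,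
`f^m s` is comparable with `s`, and conditions (i), (ii) of the problem hold for the points `x`, `y`
of `Q`; or (b) `f^m s ≤ s` and, for every `x ∈ Q`, `s ∧ x` exists or `d ∨ x` exists for every
`d ∈ Q`, `d ≤ s`; or the order dual of (a) or (b); and moreover `m` is a power of a prime, or no
four periodic points in `Q` form a chain, or for some prime `p` the points of `Q` of period prime to
`p` form a thin set, or the points `d < s` (for the dual conditions: `d > s`) of `Q` form a thin
set. -/
theorem result :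
    ∀ (P : Type u) [PartialOrder P],
      (∃ n : ℕ, ∀ c : Finset P, IsChain (· ≤ ·) (c : Set P) → c.card ≤ n) →
      ∀ (s : P) (f : P → P), Monotone f →
        ((Slim f Set.univ ∧
          ∃ (A : Set P) (β : P → P), (∀ v w : P, v ∉ A → w ∉ A → v ≤ w → β v ≤ β w) ∧
            (((∀ x ∈ A, ∃ z : P, IsLUB ({s, f x} : Set P) z) ∧
                (∀ w : P, w ∉ A → β w ≤ s ∧ β w ≤ f w) ∧
                (∀ x w : P, x < w → x ∈ A → w ∉ A → β w < s →
                  ∃ z : P, IsLUB ({β w, f x} : Set P) z)) ∨
              ((∀ x ∈ A, ∃ z : P, IsGLB ({s, f x} : Set P) z) ∧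
                (∀ w : P, w ∉ A → s ≤ β w ∧ f w ≤ β w) ∧
                (∀ x w : P, w < x → x ∈ A → w ∉ A → s < β w →
                  ∃ z : P, IsGLB ({β w, f x} : Set P) z)))) ∨
        (∃ m : ℕ,
          ((∃ g : P ≃o P, ∀ x, g x = f x) ∧ (f^[m] s ≤ s ∨ s ≤ f^[m] s) ∧
            (∀ x : P, f^[m] x = x →
              (∃ z : P, IsLUB ({s, x} : Set P) z) ∨ (∃ z : P, IsGLB ({s, x} : Set P) z)) ∧
            (((∀ x y : P, x < y → f^[m] x = x → f^[m] y = y →
                (¬ ∃ z : P, IsGLB ({s, x} : Set P) z) →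
                ∀ a : P, IsGLB ({s, y} : Set P) a → ∃ z : P, IsLUB ({a, x} : Set P) z) ∧
                Few f m {d : P | d < s}) ∨
              ((∀ x y : P, y < x → f^[m] x = x → f^[m] y = y →
                (¬ ∃ z : P, IsLUB ({s, x} : Set P) z) →
                ∀ a : P, IsLUB ({s, y} : Set P) a → ∃ z : P, IsGLB ({a, x} : Set P) z) ∧
                Few f m {d : P | s < d}))) ∨
          (f^[m] s ≤ s ∧
            (∀ x : P, f^[m] x = x → (∃ z : P, IsGLB ({s, x} : Set P) z) ∨
              ∀ d : P, d ≤ s → f^[m] d = d → ∃ z : P, IsLUB ({d, x} : Set P) z) ∧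
            Few f m {d : P | d < s}) ∨
          (s ≤ f^[m] s ∧
            (∀ x : P, f^[m] x = x → (∃ z : P, IsLUB ({s, x} : Set P) z) ∨
              ∀ d : P, s ≤ d → f^[m] d = d → ∃ z : P, IsGLB ({d, x} : Set P) z) ∧
            Few f m {d : P | s < d}))) →
        ∃ x : P, f x = x := by
  intro P _ hn s f hf h
  rcases h with ⟨hper, A, β, hm, ⟨h1, h2, h3⟩ | ⟨h1, h2, h3⟩⟩ |
    ⟨m, ⟨⟨g, hg⟩, hs, h1, h2⟩ | ⟨hs, h1, h2⟩ | ⟨hs, h1, h2⟩⟩
  · exact Pool.Agent.Helper73.PQ.main_sel P hn s f hf A h1 β h2 hm h3 hper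
  · exact Pool.Agent.Helper73.PQ.main_sel_dual P hn s f hf A h1 β h2 hm h3 hper
  · have hgf : ⇑g = f := funext hg
    subst hgf
    rcases h2 with ⟨h2, h3⟩ | ⟨h2, h3⟩
    · exact Pool.Agent.Helper73.PQ.auto_final hn g m s hs h1 h2 h3
    · exact Pool.Agent.Helper73.PQ.auto_final_dual hn g m s hs h1 h2 h3
  · exact Pool.Agent.Helper73.PQ.mono_final hn f hf m s hs h1 h2
  · exact Pool.Agent.Helper73.PQ.mono_final_dual hn f hf m s hs h1 h2

end Pool.Agent.Results.MP_3976d4_co.PeriodicPoints
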