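import Pool.Agent.Helper31.FX.Above

/-!
MP_3976d4_co, partial answer to Q1: order-preserving maps of a poset of finite length have a fixed
point if `s` is special and the elements strictly below `s` form a tame set (for instance a finite,
or locally finite, set, or a set without infinite paths, or without three-element chains); it is
enough that the values `s ∧ f w < s` at the critical elements `w`, or even only the values of a
suitable selection below them, form a tame set.
-/

set_option autoImplicit false

universe u

namespace Pool.Agent.Results.MP_3976d4_co.TameBelow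

/-- The poset `X` contains a ray of bounded diameter: an injective sequence with comparable
consecutive members such that, for some `c` and `n`, every member is joined to `c` by a path of `n`
steps between comparable elements. (Impossible if `X` is finite, or if every element of `X` is
comparable with only finitely many elements.) -/
def HasBoundedRay (X : Type u) [PartialOrder X] : Prop :=
  ∃ v : ℕ → X, Function.Injective v ∧ (∀ k, v k ≤ v (k + 1) ∨ v (k + 1) ≤ v k) ∧
    ∃ (c : X) (n : ℕ), ∀ i, ∃ p : ℕ → X, p 0 = c ∧ p n = v i ∧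
      ∀ j < n, p j ≤ p (j + 1) ∨ p (j + 1) ≤ p j

/-- `q : X → P` is a covering of the set `E`: `q` is order-preserving with image `E`, and
comparabilities lift uniquely. (The inclusion of `E` is a covering of `E`.) -/
structure IsCovering {X P : Type u} [PartialOrder X] [PartialOrder P] (q : X → P) (E : Set P) :
    Prop where
  mem : ∀ x, q x ∈ E
  onto : ∀ e ∈ E, ∃ x, q x = e
  mono : ∀ x y, x ≤ y → q x ≤ q y
  up : ∀ x, ∀ e ∈ E, q x ≤ e → ∃! y, x ≤ y ∧ q y = e
  down : ∀ x, ∀ e ∈ E, e ≤ q x → ∃! y, y ≤ x ∧ q y = e

/-- Some covering of `E` has no ray of bounded diameter. -/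
def Tame {P : Type u} [PartialOrder P] (E : Set P) : Prop :=
  ∃ (X : Type u) (_ : PartialOrder X) (q : X → P), IsCovering q E ∧ ¬ HasBoundedRay X

theorem Tame.coverTame {P : Type u} [PartialOrder P] {E : Set P} (h : Tame E) :
    Pool.Agent.Helper31.FX.CoverTame E := by
  obtain ⟨X, hX, q, hq, hr⟩ := h
  refine ⟨X, hX, q, ⟨hq.mem, hq.onto, hq.mono, hq.up, hq.down⟩, ?_⟩
  rintro ⟨v, hv, -, hc, c, n, hp⟩
  refine hr ⟨v, hv, hc, c, n, fun i => ?_⟩
  obtain ⟨p, h0, hn, -, hpc⟩ := hp i
  exact ⟨p, h0, hn, hpc⟩

/-- Let `P` be a poset whose chains have bounded size, `s` an element of `P`, `f` an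
order-preserving self-map, `A` a set of elements and `β : P → P` order-preserving off `A`. Suppose
that
(a) `s ∨ f x` exists for all `x ∈ A`, `β w ≤ s` and `β w ≤ f w` for all `w ∉ A`, the join
`β w ∨ f x` exists whenever `x < w`, `x ∈ A`, `w ∉ A` and `β w < s`, and the values `β w < s`
at the `w ∉ A` which are above some element of `A` form a tame set; or
(b) the order dual of (a).
Then `f` has a fixed point. (If `s` is special, (a) holds for `β w = s ∧ f w` and `A` the set of all
`x` such that `s ∧ f x` does not exist, or such that `s ∨ f y` exists for all `y ≥ x`, provided that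
the elements strictly below `s` form a tame set. If `P` is finite, or if all joins or all meets with
`s` exist, this needs no proviso.) -/
theorem result :
    ∀ (P : Type u) [PartialOrder P],
      (∃ n : ℕ, ∀ c : Finset P, IsChain (· ≤ ·) (c : Set P) → c.card ≤ n) →
      ∀ (s : P) (f : P → P), Monotone f →
        ∀ (A : Set P) (β : P → P), (∀ v w : P, v ∉ A → w ∉ A → v ≤ w → β v ≤ β w) →
        (((∀ x ∈ A, ∃ z : P, IsLUB ({s, f x} : Set P) z) ∧
            (∀ w : P, w ∉ A → β w ≤ s ∧ β w ≤ f w) ∧
            (∀ x w : P, x < w → x ∈ A → w ∉ A → β w < s → ∃ z : P, IsLUB ({β w, f x} : Set P) z) ∧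
            Tame {e : P | ∃ w : P, w ∉ A ∧ (∃ x ∈ A, x < w) ∧ β w < s ∧ β w = e}) ∨
          ((∀ x ∈ A, ∃ z : P, IsGLB ({s, f x} : Set P) z) ∧
            (∀ w : P, w ∉ A → s ≤ β w ∧ f w ≤ β w) ∧
            (∀ x w : P, w < x → x ∈ A → w ∉ A → s < β w → ∃ z : P, IsGLB ({β w, f x} : Set P) z) ∧
            Tame {e : P | ∃ w : P, w ∉ A ∧ (∃ x ∈ A, w < x) ∧ s < β w ∧ β w = e})) →
        ∃ x : P, f x = x := by
  intro P _ hn s f hf A β hm h
  rcases h with ⟨h1, h2, h3, h4⟩ | ⟨h1, h2, h3, h4⟩
  · exact Pool.Agent.Helper31.FX.main_cover4 P hn s f hf A h1 β h2 hm h3 h4.coverTame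
  · exact Pool.Agent.Helper31.FX.main_cover4_dual P hn s f hf A h1 β h2 hm h3 h4.coverTame

end Pool.Agent.Results.MP_3976d4_co.TameBelow
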