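import Pool.Agent.Helper43.SPH.UniqueTop

/-!
MP_3976d4_co, partial answer to Q1: the conclusion holds for all posets whose chains have at most
five elements, and for all special `s` such that every element above `s` lies below only one maximal
element and either no chain of four elements lies below `s` or, for every `c < s`, the set
`{d | d < c}` (or only the set of the values `s ∧ f w < c`) is tame.
-/

set_option autoImplicit false

universe u

namespace Pool.Agent.Results.MP_3976d4_co.UniqueTopAbove

/-- The poset `X` contains a ray of bounded diameter: an injective sequence with comparable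
consecutive members such that, for some `c` and `n`, every member is joined to `c` by a path of `n`
steps between comparable elements. (Impossible if `X` is finite, or if every element of `X` is
comparable with only finitely many elements.) -/
def HasBoundedRay (X : Type u) [PartialOrder X] : Prop :=
  ∃ v : ℕ → X, Function.Injective v ∧ (∀ k, v k ≤ v (k + 1) ∨ v (k + 1) ≤ v k) ∧
    ∃ (c : X) (n : ℕ), ∀ i, ∃ p : ℕ → X, p 0 = c ∧ p n = v i ∧
      ∀ j < n, p j ≤ p (j + 1) ∨ p (j + 1) ≤ p j

/-- `q : X → P` is a covering of the set `E`: `q` is order-preserving with image `E`, and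
comparabilities lift uniquely. (The inclusion of `E` is a covering of `E`.) -/
structure IsCovering {X P : Type u} [PartialOrder X] [PartialOrder P] (q : X → P) (E : Set P) :
    Prop where
  mem : ∀ x, q x ∈ E
  onto : ∀ e ∈ E, ∃ x, q x = e
  mono : ∀ x y, x ≤ y → q x ≤ q y
  up : ∀ x, ∀ e ∈ E, q x ≤ e → ∃! y, x ≤ y ∧ q y = e
  down : ∀ x, ∀ e ∈ E, e ≤ q x → ∃! y, y ≤ x ∧ q y = e

/-- Some covering of `E` has no ray of bounded diameter. -/
def Tame {P : Type u} [PartialOrder P] (E : Set P) : Prop :=
  ∃ (X : Type u) (_ : PartialOrder X) (q : X → P), IsCovering q E ∧ ¬ HasBoundedRay X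

theorem Tame.coverTame {P : Type u} [PartialOrder P] {E : Set P} (h : Tame E) :
    Pool.Agent.Helper31.FX.CoverTame E := by
  obtain ⟨X, hX, q, hq, hr⟩ := h
  refine ⟨X, hX, q, ⟨hq.mem, hq.onto, hq.mono, hq.up, hq.down⟩, ?_⟩
  rintro ⟨v, hv, -, hc, c, n, hp⟩
  refine hr ⟨v, hv, hc, c, n, fun i => ?_⟩
  obtain ⟨p, h0, hn, -, hpc⟩ := hp i
  exact ⟨p, h0, hn, hpc⟩

/-- Let `P` be a poset whose chains have bounded size, `s` an element such that `s ∨ x` or `s ∧ x`
exists for every `x` (condition (i)), and `f` an order-preserving self-map of `P`. Suppose that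
(a) `s` satisfies condition (ii) of the problem and either all chains of `P` have at most five
elements, or for every `v > s` the set `{w | v ≤ w}` has a greatest element (that is, `v` lies below
only one maximal element) and one of the following holds: no chain of four elements lies below `s`;
or, for every `c < s`, the values `s ∧ f w < c` form a tame set; or
(b) the order dual of (a).
Then `f` has a fixed point. -/
theorem result :
    ∀ (P : Type u) [PartialOrder P],
      (∃ n : ℕ, ∀ c : Finset P, IsChain (· ≤ ·) (c : Set P) → c.card ≤ n) →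
      ∀ s : P,
        (∀ x : P, (∃ z : P, IsLUB ({s, x} : Set P) z) ∨ (∃ z : P, IsGLB ({s, x} : Set P) z)) →
        ∀ f : P → P, Monotone f →
        (((∀ x y : P, x < y → (¬ ∃ z : P, IsGLB ({s, x} : Set P) z) →
              ∀ m : P, IsGLB ({s, y} : Set P) m → ∃ z : P, IsLUB ({m, x} : Set P) z) ∧
            ((∀ c : Finset P, IsChain (· ≤ ·) (c : Set P) → c.card ≤ 5) ∨
              ((∀ v : P, s < v → ∃ z : P, IsGreatest {w : P | v ≤ w} z) ∧
                ((∀ a b c d : P, a < b → b < c → c < d → ¬ d < s) ∨
                  ∀ c : P, c < s → Tame {d : P | d < c ∧ ∃ w, IsGLB ({s, f w} : Set P) d})))) ∨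
          ((∀ x y : P, y < x → (¬ ∃ z : P, IsLUB ({s, x} : Set P) z) →
              ∀ m : P, IsLUB ({s, y} : Set P) m → ∃ z : P, IsGLB ({m, x} : Set P) z) ∧
            ((∀ c : Finset P, IsChain (· ≤ ·) (c : Set P) → c.card ≤ 5) ∨
              ((∀ v : P, v < s → ∃ z : P, IsLeast {w : P | w ≤ v} z) ∧
                ((∀ a b c d : P, b < a → c < b → d < c → ¬ s < d) ∨
                  ∀ c : P, s < c → Tame {d : P | c < d ∧ ∃ w, IsLUB ({s, f w} : Set P) d}))))) →
        ∃ x : P, f x = x := by
  intro P _ hn s h1 f hf h
  rcases h with ⟨h2, h5 | ⟨hu, h4 | ht⟩⟩ | ⟨h2, h5 | ⟨hu, h4 | ht⟩⟩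
  · exact Pool.Agent.Helper43.SPH.main_length_four h5 s h1 h2 f hf
  · exact Pool.Agent.Helper43.SPH.main_unique_top P hn s h1 h2 hu f hf (fun c hc =>
      Pool.Agent.Helper43.SPH.coverTame_of_no_four h4 c hc _ fun _ hd => hd.1)
  · exact Pool.Agent.Helper43.SPH.main_unique_top P hn s h1 h2 hu f hf
      (fun c hc => (ht c hc).coverTame)
  · exact Pool.Agent.Helper43.SPH.main_length_four_dual P h5 s h1 h2 f hf
  · exact Pool.Agent.Helper43.SPH.main_unique_top_dual P hn s h1 h2 hu f hf (fun c hc =>
      Pool.Agent.Helper43.SPH.coverTame_of_no_four_dual h4 c hc _ fun _ hd => hd.1)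
  · exact Pool.Agent.Helper43.SPH.main_unique_top_dual P hn s h1 h2 hu f hf
      (fun c hc => (ht c hc).coverTame)

end Pool.Agent.Results.MP_3976d4_co.UniqueTopAbove
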